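import Pool.Agent.KS6_19.DA.L.H637R4.PO.Defs0

set_option autoImplicit false

open Complex Topology Filter Metric MeasureTheory Set

namespace Pool.Agent.H637R4.PO

theorem t_QT (hKB : S_KB) : S_QT := by
  intro φ z v R hR hd hinj hv
  have hz : z ∈ ball z R := mem_ball_self hR
  have hne : ∀ w ∈ ball z R, v - φ w ≠ 0 := by
    intro w hw h
    exact hv ⟨w, hw, (sub_eq_zero.mp h).symm⟩
  set D : ℂ := v - φ z with hD
  have hD0 : D ≠ 0 := hne z hz
  obtain ⟨hP0, hPb⟩ := hKB φ z R hR hd hinj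
  set h : ℂ → ℂ := fun w => D * (φ w - φ z) / (v - φ w) with hh
  have hφ : ∀ w ∈ ball z R, HasDerivAt φ (deriv φ w) w := fun w hw =>
    (hd.differentiableAt (isOpen_ball.mem_nhds hw)).hasDerivAt
  have hφ' : HasDerivAt (deriv φ) (deriv (deriv φ) z) z :=
    ((hd.deriv isOpen_ball).differentiableAt (isOpen_ball.mem_nhds hz)).hasDerivAt
  have hder : ∀ w ∈ ball z R, HasDerivAt h (D ^ 2 * deriv φ w / (v - φ w) ^ 2) w := by
    intro w hw
    have h1 := (((hφ w hw).sub_const (φ z)).const_mul D).div ((hφ w hw).const_sub v) (hne w hw)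
    refine h1.congr_deriv ?_
    congr 1
    rw [hD]
    ring
  have hdh : DifferentiableOn ℂ h (ball z R) := fun w hw =>
    (hder w hw).differentiableAt.differentiableWithinAt
  have hinjh : InjOn h (ball z R) := by
    intro p hp q hq hpq
    apply hinj hp hq
    have h1 : D * (φ p - φ z) * (v - φ q) = D * (φ q - φ z) * (v - φ p) :=
      (div_eq_div_iff (hne p hp) (hne q hq)).mp hpq
    have h2 : D * D * (φ p - φ q) = 0 := by
      rw [hD] at h1 ⊢
      linear_combination h1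
    have h3 := (mul_eq_zero.mp h2).resolve_left (mul_ne_zero hD0 hD0)
    exact sub_eq_zero.mp h3
  obtain ⟨-, hHb⟩ := hKB h z R hR hdh hinjh
  have e1 : deriv h z = deriv φ z := by
    rw [(hder z hz).deriv, ← hD]
    field_simp
  have e2 : deriv (deriv h) z = deriv (deriv φ) z + 2 * deriv φ z ^ 2 / D := by
    have hev : deriv h =ᶠ[𝓝 z] fun w => D ^ 2 * deriv φ w / (v - φ w) ^ 2 := by
      filter_upwards [isOpen_ball.mem_nhds hz] with w hw
      exact (hder w hw).deriv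
    rw [hev.deriv_eq]
    have h2 := (hφ'.const_mul (D ^ 2)).div (((hφ z hz).const_sub v).pow 2)
      (pow_ne_zero 2 (hne z hz))
    have h2' : HasDerivAt (fun w => D ^ 2 * deriv φ w / (v - φ w) ^ 2)
        ((D ^ 2 * deriv (deriv φ) z * (v - φ z) ^ 2 -
          D ^ 2 * deriv φ z * (2 * (v - φ z) * -deriv φ z)) / ((v - φ z) ^ 2) ^ 2) z := by
      refine h2.congr_deriv ?_
      simp only [Pi.pow_apply, Nat.cast_ofNat, Nat.add_one_sub_one, pow_one]
    rw [h2'.deriv, ← hD]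
    field_simp
    ring
  rw [e1, e2] at hHb
  have hPpos : 0 < ‖deriv φ z‖ := norm_pos_iff.mpr hP0
  have hDpos : 0 < ‖D‖ := norm_pos_iff.mpr hD0
  have h3 : ‖2 * deriv φ z ^ 2 / D‖ ≤
      ‖deriv (deriv φ) z + 2 * deriv φ z ^ 2 / D‖ + ‖deriv (deriv φ) z‖ := by
    have := norm_sub_le (deriv (deriv φ) z + 2 * deriv φ z ^ 2 / D) (deriv (deriv φ) z)
    rwa [add_sub_cancel_left] at this
  have h4 : ‖2 * deriv φ z ^ 2 / D‖ = 2 * ‖deriv φ z‖ ^ 2 / ‖D‖ := by
    rw [norm_div, norm_mul, norm_pow]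
    norm_num
  rw [h4] at h3
  have h5 : R * (2 * ‖deriv φ z‖ ^ 2 / ‖D‖) ≤ 8 * ‖deriv φ z‖ := by
    have := mul_le_mul_of_nonneg_left h3 hR.le
    rw [mul_add] at this
    linarith
  have h6 : R * (2 * ‖deriv φ z‖ ^ 2) ≤ 8 * ‖deriv φ z‖ * ‖D‖ := by
    rw [← mul_div_assoc, div_le_iff₀ hDpos] at h5
    exact h5
  have h7 : (2 * ‖deriv φ z‖) * (R * ‖deriv φ z‖) ≤ (2 * ‖deriv φ z‖) * (4 * ‖D‖) := by
    nlinarith
  exact le_of_mul_le_mul_left h7 (by positivity)

end Pool.Agent.H637R4.PO
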